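import Pool.Agent.X324.CF.Plus2

set_option autoImplicit false

/-!
# The weak nef cone conjecture for pairs on quotients of products `A × F`

`A = V / Λ` is an abelian variety and `F` a normal projective variety, `ℚ`-factorial with free class
group, whose nef cone is spanned by finitely many semiample classes; for instance a Mori dream space.
Let `X = (A × F) / G`, where a finite group `G` acts diagonally; the action may have fixed points and
fixed divisors, and it may permute the faces of the nef cone of `F`. Let `X → Z` be a fibration given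
by a linear map `π : V → W`, where `Z = W / Γ'` is a quotient of an abelian variety, and let `Δ` be an
effective divisor on `X` with real coefficients such that `K_X + Δ` is numerically trivial over `Z`.
(Only the curves of `X` which come from curves `C × {point}` in `A × F` are needed for this
hypothesis.) The theorem says that the faces of the cone `A^e(X/Z)` of nef and effective classes form
finitely many orbits under `Aut(X/Z, Δ)`, even under the subgroup of the automorphisms of the form
`(f, id)`. A contraction `φ : X → Y` over `Z` defines the face `F_φ` of the classes in `A^e(X/Z)` which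
are trivial on the curves contracted by `φ` (a sum of two nef classes is trivial on a curve only if
both are), and this is a face in the sense of convex geometry. So the faces of birational contractions
and of fibre space structures form finitely many orbits.

The theorem also says that `A^e(X/Z)` is the convex hull of the rational nef classes.

`Cl`, `IsNefPolyhedral`, `Grp`, `base`, `IsQuotient`, `Sheaf`, `EffDiv`, `EffDiv.Fixed`, `NumTrivial`,
`Normalizes`, `N1`, `integral`, `effective`, `semiample`, `nefCone`, `effCone` and `IsPullback` are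
defined in `Pool.Agent.X324.CF.Defs`; `IsTorusQuotient` in `Pool.Agent.W594.SYZ.Defs2`;
`IsPositiveForm` in `Pool.Agent.W594.SYZ.TQDefs`; `IsFibration` in `Pool.Agent.TH735.AQ.Defs`;
`AffGrp`, `LinGrp` and `Preserves` in `Pool.Agent.Y167.Stm`; `IsFace` in `Pool.Agent.Y167.StmFace`.
-/

namespace Pool.Agent.Results.MP_39bf0e_ag.ProductQuotients

open Pool.Agent.W594.SYZ2 Pool.Agent.TH735.AQ Pool.Agent.X324.CF
open Pool.Agent.Y167 (AffGrp IsFace)
open Pool.Agent.Y167.CC (LinGrp Preserves)

/-- The cone `A^e(X/Z)` of nef and effective classes. -/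
def nefEff {V E R : Type*} [NormedAddCommGroup V] [NormedSpace ℂ V] [NormedAddCommGroup E]
    [NormedSpace ℂ E] [CommRing R] [Algebra ℂ R] {ρ : ℕ} (𝒜 : Cl ρ → Submodule ℂ R) (u : Cl ρ)
    (Γ : Grp V R) (j : E →ₗ[ℂ] V) : Set (N1 𝒜 Γ j) := nefCone 𝒜 Γ j u ∩ effCone 𝒜 Γ j

/-- The automorphism of `X` given by the affine transformation `f` of `V` and the identity of `F` is
an automorphism over `Z = W / Γ'`. -/
def Over {V W : Type*} [NormedAddCommGroup V] [NormedSpace ℂ V] [NormedAddCommGroup W]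
    [NormedSpace ℂ W] (Γ' : AffGrp W) (π : V →ₗ[ℂ] W) (f : V ≃ᵃ[ℂ] V) : Prop :=
  ∃ δ ∈ Γ', ∀ v, π (f v) = δ (π v)

/-- `𝒢` is a group of linear automorphisms of `N^1(X/Z)` which preserves the integral classes and the
cone of nef and effective classes, and which contains the pullbacks by all automorphisms of `X` over
`Z` of the form `(f, id)` which map `Δ` to itself. The image of `Aut(X/Z, Δ)` has these properties. -/
structure IsAutGroup {V W E R : Type*} [NormedAddCommGroup V] [NormedSpace ℂ V]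
    [NormedAddCommGroup W] [NormedSpace ℂ W] [NormedAddCommGroup E] [NormedSpace ℂ E]
    [CommRing R] [Algebra ℂ R] {ρ : ℕ} {𝒜 : Cl ρ → Submodule ℂ R} (u : Cl ρ)
    {Γ : Grp V R} (Γ' : AffGrp W) (π : V →ₗ[ℂ] W) {j : E →ₗ[ℂ] V} {ι : Type*} [Fintype ι]
    (Δ : EffDiv 𝒜 Γ ι) (𝒢 : LinGrp (N1 𝒜 Γ j)) : Prop where
  int : Preserves 𝒢 (integral 𝒜 Γ j)
  nef_eff : Preserves 𝒢 (nefEff 𝒜 u Γ j)
  aff : ∀ f : V ≃ᵃ[ℂ] V, Normalizes Γ f → Over Γ' π f → Δ.Fixed f →
    ∀ g, IsPullback f g → g ∈ 𝒢

/-- Let `F` be a variety whose nef cone is spanned by the semiample classes `w i`, with ample class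
`u`. Let `X = (V × F) / Γ` be a projective quotient, `X → Z = W / Γ'` a fibration and `Δ` an effective
divisor with real coefficients on `X` such that `K_X + Δ` is numerically trivial over `Z`. Here `E` is
the kernel of `π`, embedded by `j`. The faces of the cone `A^e(X/Z)` of nef effective classes form
finitely many orbits under `𝒢`, and this cone is the convex hull of the rational nef classes. -/
theorem result {V W E R : Type*} [NormedAddCommGroup V] [NormedSpace ℂ V] [FiniteDimensional ℂ V]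
    [NormedAddCommGroup W] [NormedSpace ℂ W] [FiniteDimensional ℂ W]
    [NormedAddCommGroup E] [NormedSpace ℂ E] [FiniteDimensional ℂ E]
    [CommRing R] [IsDomain R] [Algebra ℂ R] {ρ n : ℕ}
    (𝒜 : Cl ρ → Submodule ℂ R) [GradedAlgebra 𝒜] (w : Fin n → Cl ρ) (u : Cl ρ)
    (hF : IsNefPolyhedral 𝒜 w u) (Γ : Grp V R) (hX : IsQuotient 𝒜 u Γ)
    (hproj : ∃ (L : Sheaf 𝒜 Γ) (H : V → V → ℂ), L.IsChern H ∧ IsPositiveForm H)
    (Γ' : AffGrp W) (π : V →ₗ[ℂ] W) (hπ : IsFibration (base Γ) Γ' π)
    (j : E →ₗ[ℂ] V) (hj : Function.Injective j) (hjr : LinearMap.range j = LinearMap.ker π)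
    {ι : Type*} [Fintype ι] (Δ : EffDiv 𝒜 Γ ι) (hΔ : NumTrivial Δ j)
    (𝒢 : LinGrp (N1 𝒜 Γ j)) (h𝒢 : IsAutGroup u Γ' π Δ 𝒢) :
    (∃ 𝓕 : Set (Set (N1 𝒜 Γ j)), 𝓕.Finite ∧ (∀ Φ ∈ 𝓕, IsFace Φ (nefEff 𝒜 u Γ j)) ∧
      ∀ Φ, IsFace Φ (nefEff 𝒜 u Γ j) → ∃ g ∈ 𝒢, ∃ Φ' ∈ 𝓕, Φ = g '' Φ') ∧
    nefEff 𝒜 u Γ j = convexHull ℝ (nefCone 𝒜 Γ j u ∩
      {a | ∃ m : ℕ, 0 < m ∧ (m : ℝ) • a ∈ integral 𝒜 Γ j}) := by
  obtain ⟨H₀, Rl⟩ := rel_emb hX hproj hπ hj hjr
  obtain ⟨S, -, h2, h3⟩ := core hF.base hX hF.fam Rl (good_nef hF hX) Δ hΔ 𝒢 h𝒢.int h𝒢.nef_eff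
    (fun f hf hf2 hf3 g hg => h𝒢.aff f hf ⟨1, Γ'.one_mem, fun v => by
      obtain ⟨e, he⟩ := hf2 v
      have h5 : π (j e) = 0 := by
        have h6 : j e ∈ LinearMap.ker π := hjr ▸ LinearMap.mem_range_self j e
        exact h6
      rw [he, map_add, h5, add_zero]
      rfl⟩ hf3 g hg)
  exact ⟨faces hF.base hX hF.fam Rl (good_nef hF hX) 𝒢 h𝒢.nef_eff h2 h3,
    plus hF.base hX hF.fam Rl (good_nef hF hX)⟩

end Pool.Agent.Results.MP_39bf0e_ag.ProductQuotients
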